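import Pool.Agent.Helper98.APBuchi

/-! MP_e601b1_lc, Q1: a `k`-automatic set `X ⊆ ℕ^m` such that `(ℕ,+,X)` and `(ℕ,+,k^ℕ)` define the
same subsets of `ℕ` is itself definable in `(ℕ,+,k^ℕ)`. -/

namespace Pool.Agent.Results.MP_e601b1_lc.TameUnarySets

open FirstOrder Pool.Agent.Helper98.AP

/-- The first-order language with exactly one function symbol, which is binary, and exactly one
relation symbol, which is `m`-ary. -/
def addRel (m : ℕ) : Language := ⟨fun n => PLift (n = 2), fun n => PLift (n = m)⟩

/-- The structure `(ℕ, +, X)` for `X ⊆ ℕ^m`: the function symbol is addition, the relation symbol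
is `X`. -/
@[reducible] def natStr {m : ℕ} (X : Set (Fin m → ℕ)) : (addRel m).Structure ℕ where
  funMap := fun h x => x (Fin.cast h.down.symm 0) + x (Fin.cast h.down.symm 1)
  RelMap := fun h x => (fun i => x (Fin.cast h.down.symm i)) ∈ X

/-- `S ⊆ ℕ^n` is first-order definable (without parameters) in `(ℕ, +, X)`. -/
def DefinableIn {m : ℕ} (X : Set (Fin m → ℕ)) {n : ℕ} (S : Set (Fin n → ℕ)) : Prop :=
  @Set.Definable ℕ ∅ (addRel m) (natStr X) (Fin n) S

/-- A subset of `ℕ` as a set of `1`-tuples. -/
def unary (A : Set ℕ) : Set (Fin 1 → ℕ) := {v | v 0 ∈ A}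

/-- The set `k^ℕ` of the powers of `k`. -/
def powers (k : ℕ) : Set ℕ := {x | ∃ n : ℕ, x = k ^ n}

/-- The tuple of natural numbers whose base-`k` digits, most significant digit first and read in
parallel, are given by the word `w` over the alphabet `{0,…,k-1}^m`. -/
def value (k : ℕ) {m : ℕ} (w : List (Fin m → Fin k)) : Fin m → ℕ :=
  fun i => w.foldl (fun a d => k * a + (d i : ℕ)) 0

/-- `X ⊆ ℕ^m` is `k`-automatic: there is a finite automaton over the alphabet `{0,…,k-1}^m` which
accepts a word `w` if and only if `w` represents a tuple in `X`. This is only required of the words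
that do not begin with the letter `(0,…,0)`, that is, for which the common length of the expansions
is as small as possible; what the automaton does on words with superfluous leading zeros does not
matter. -/
def IsAutomatic (k : ℕ) {m : ℕ} (X : Set (Fin m → ℕ)) : Prop :=
  ∃ (σ : Type) (_ : Finite σ) (M : DFA (Fin m → Fin k) σ),
    ∀ w : List (Fin m → Fin k), (∀ d l, w = d :: l → ∃ i, (d i : ℕ) ≠ 0) →
      (w ∈ M.accepts ↔ value k w ∈ X)

/-! ### words -/

section words

variable {k m : ℕ}

/-- the word of the `n` lowest digits -/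
def word (hk : 0 < k) (a : Fin m → ℕ) : ℕ → List (Fin m → Fin k)
  | 0 => []
  | n + 1 => (fun i => ⟨a i / k ^ n % k, Nat.mod_lt _ hk⟩) :: word hk a n

theorem value_word_aux (hk : 0 < k) (a : Fin m → ℕ) (i : Fin m) : ∀ n acc,
    (word hk a n).foldl (fun b d => k * b + (d i : ℕ)) acc = acc * k ^ n + a i % k ^ n := by
  intro n
  induction n with
  | zero => intro acc; simp [word, Nat.mod_one]
  | succ n ih =>
    intro acc
    rw [word, List.foldl_cons, ih, Nat.mod_pow_succ, pow_succ]
    ring

theorem value_word (hk : 0 < k) {a : Fin m → ℕ} {n : ℕ} (h : ∀ i, a i < k ^ n) :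
    value k (word hk a n) = a := by
  funext i
  unfold value
  rw [value_word_aux, Nat.zero_mul, Nat.zero_add, Nat.mod_eq_of_lt (h i)]

theorem word_add_mul (hk : 0 < k) (a z : Fin m → ℕ) (M : ℕ) : ∀ n, n ≤ M →
    word hk (fun i => a i * k ^ M + z i) n = word hk z n := by
  intro n
  induction n with
  | zero => intro _; rfl
  | succ n ih =>
    intro hn
    rw [word, word, ih (by omega)]
    congr 1
    funext i
    apply Fin.ext
    show (a i * k ^ M + z i) / k ^ n % k = z i / k ^ n % k
    have e : a i * k ^ M + z i = k ^ n * (k * (a i * k ^ (M - (n + 1)))) + z i := by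
      have : k ^ M = k ^ n * k * k ^ (M - (n + 1)) := by
        rw [← pow_succ, ← pow_add]; congr 1; omega
      rw [this]; ring
    rw [e, Nat.mul_add_div (by positivity), Nat.mul_add_mod]

theorem word_append (hk : 0 < k) (a z : Fin m → ℕ) (n' : ℕ) (hz : ∀ i, z i < k ^ n') : ∀ n,
    word hk (fun i => a i * k ^ n' + z i) (n + n') = word hk a n ++ word hk z n' := by
  intro n
  induction n with
  | zero => rw [Nat.zero_add, word_add_mul hk a z n' n' le_rfl]; rfl
  | succ n ih =>
    have e : n + 1 + n' = (n + n') + 1 := by omega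
    rw [e, word, word, ih, List.cons_append]
    congr 1
    funext i
    apply Fin.ext
    show (a i * k ^ n' + z i) / k ^ (n + n') % k = a i / k ^ n % k
    rw [Nat.add_comm n n', pow_add, ← Nat.div_div_eq_div_mul, Nat.mul_comm (a i),
      Nat.mul_add_div (by positivity), Nat.div_eq_of_lt (hz i), Nat.add_zero]

/-- automaton-recognisable sets have finitely many residual families -/
theorem aut_of_isAutomatic (hk : 2 ≤ k) {X : Set (Fin m → ℕ)} (h : IsAutomatic k X) :
    Aut k X := by
  classical
  obtain ⟨σ, hσ, M, hM⟩ := h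
  have hk0 : 0 < k := by omega
  refine Aut.of_subset_image (s := (Set.univ : Set (Option σ))) Set.finite_univ
    (fun o => o.elim (resid k X (fun _ => 0)) (fun s n =>
      {z | (∀ i, z i < k ^ n) ∧ M.evalFrom s (word hk0 z n) ∈ M.accept})) ?_
  intro a
  by_cases ha : ∀ i, a i = 0
  · refine ⟨none, trivial, ?_⟩
    have : a = fun _ => 0 := funext ha
    rw [this]
    rfl
  · push Not at ha
    obtain ⟨i0, hi0⟩ := ha
    have hex : ∃ n, ∀ i, a i < k ^ n := by
      refine ⟨∑ i, a i, fun i => ?_⟩
      calc a i ≤ ∑ i, a i := Finset.single_le_sum (fun _ _ => Nat.zero_le _) (Finset.mem_univ i)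
        _ < k ^ (∑ i, a i) := Nat.lt_pow_self (by omega)
    set N := Nat.find hex with hN
    have hN1 : ∀ i, a i < k ^ N := Nat.find_spec hex
    have hN0 : N ≠ 0 := by
      intro h0
      have := hN1 i0
      rw [h0, pow_zero] at this
      omega
    obtain ⟨N', hN'⟩ : ∃ N', N = N' + 1 := ⟨N - 1, by omega⟩
    obtain ⟨i1, hi1⟩ : ∃ i, k ^ N' ≤ a i := by
      by_contra hcon
      push Not at hcon
      have := Nat.find_min' hex hcon
      omega
    refine ⟨some (M.eval (word hk0 a N)), trivial, ?_⟩
    funext n
    ext z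
    show (_ ∧ _) ↔ (_ ∧ _)
    refine and_congr_right fun hz => ?_
    have happ := word_append hk0 a z n hz N
    have hlt : ∀ i, a i * k ^ n + z i < k ^ (N + n) := by
      intro i
      calc a i * k ^ n + z i < a i * k ^ n + k ^ n := by have := hz i; omega
        _ = (a i + 1) * k ^ n := by ring
        _ ≤ k ^ N * k ^ n := Nat.mul_le_mul_right _ (hN1 i)
        _ = k ^ (N + n) := by rw [← pow_add]
    have hval := value_word hk0 hlt
    have hlead : ∀ d l, word hk0 (fun i => a i * k ^ n + z i) (N + n) = d :: l →
        ∃ i, (d i : ℕ) ≠ 0 := by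
      intro d l hdl
      rw [happ, hN', word, List.cons_append, List.cons.injEq] at hdl
      refine ⟨i1, ?_⟩
      rw [← hdl.1]
      show a i1 / k ^ N' % k ≠ 0
      have h1 : a i1 / k ^ N' < k := by
        rw [Nat.div_lt_iff_lt_mul (by positivity)]
        have := hN1 i1
        rw [hN', pow_succ'] at this
        exact this
      have h2 : 0 < a i1 / k ^ N' := Nat.div_pos hi1 (by positivity)
      rw [Nat.mod_eq_of_lt h1]
      omega
    have key := hM _ hlead
    rw [hval] at key
    rw [← key, happ, DFA.mem_accepts, DFA.eval, DFA.evalFrom_of_append]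

end words

/-! ### definable sets form a system -/

section lang

variable {m : ℕ}

/-- the system of the sets definable in `(ℕ, +, X)` -/
def sys (X : Set (Fin m → ℕ)) : DefSys where
  D := fun α _ S => @Set.Definable ℕ ∅ (addRel m) (natStr X) α S
  compl := by
    intro α _ S h
    let _ := natStr X
    exact Set.Definable.compl h
  inter := by
    intro α _ S T h h'
    let _ := natStr X
    exact Set.Definable.inter h h'
  preimage := by
    intro α β _ _ f S h
    let _ := natStr X
    exact Set.Definable.preimage_comp f h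
  image := by
    intro α β _ _ f S h
    let _ := natStr X
    exact Set.Definable.image_comp h f
  add := by
    let _ := natStr X
    rw [Set.empty_definable_iff]
    refine ⟨((Language.Term.func (L := addRel m) (l := 2) ⟨rfl⟩
      ![Language.Term.var (0 : Fin 3), Language.Term.var 1]).equal (Language.Term.var 2)), ?_⟩
    ext x
    simp only [Set.mem_ofPred_eq, Language.Formula.realize_equal, Language.Term.realize_func,
      Language.Term.realize_var]
    rfl

theorem sys_self (X : Set (Fin m → ℕ)) : (sys X).D (Fin m) X := by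
  let _ := natStr X
  show @Set.Definable ℕ ∅ (addRel m) (natStr X) (Fin m) X
  rw [Set.empty_definable_iff]
  refine ⟨Language.Relations.formula (L := addRel m) (n := m) ⟨rfl⟩
    (fun i => Language.Term.var i), ?_⟩
  ext x
  simp only [Set.mem_ofPred_eq, Language.Formula.realize_rel, Language.Term.realize_var]
  rfl

theorem sys_unary (X : Set (Fin m → ℕ)) (A : Set ℕ) :
    DefinableIn X (unary A) ↔ (sys X).D Unit {v | v () ∈ A} := by
  constructor
  · intro h
    have h' : (sys X).D (Fin 1) (unary A) := h
    exact (sys X).preimage (fun _ : Fin 1 => ()) h'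
  · intro h
    have := (sys X).preimage (fun _ : Unit => (0 : Fin 1)) h
    exact this

end lang

/-- **Answer to Q1.** Let `k ≥ 2`, let `X ⊆ ℕ^m` be `k`-automatic, and suppose that the subsets of
`ℕ` definable in `(ℕ,+,X)` are exactly those definable in `(ℕ,+,k^ℕ)`. Then `X` is definable in
`(ℕ,+,k^ℕ)`. -/
theorem result (k m : ℕ) (hk : 2 ≤ k) (X : Set (Fin m → ℕ)) (hX : IsAutomatic k X)
    (h : ∀ A : Set ℕ, DefinableIn X (unary A) ↔ DefinableIn (unary (powers k)) (unary A)) :
    DefinableIn (unary (powers k)) X := by
  have hpow' : PowIn (sys (unary (powers k))) k :=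
    (sys_unary (unary (powers k)) (powers k)).1 (sys_self (unary (powers k)))
  have hpow : PowIn (sys X) k :=
    (sys_unary X (powers k)).1 ((h (powers k)).2 (sys_self (unary (powers k))))
  refine abstract_main (α := Fin m) hk hpow hpow' ?_ (sys_self X) (aut_of_isAutomatic hk hX)
  intro A hA
  have e : A = {v : Unit → ℕ | v () ∈ {x : ℕ | (fun _ => x) ∈ A}} := by
    ext v
    show v ∈ A ↔ (fun _ => v ()) ∈ A
    have : (fun _ => v ()) = v := by funext u; rfl
    rw [this]
  rw [e] at hA ⊢
  exact (sys_unary _ _).1 ((h _).1 ((sys_unary _ _).2 hA))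

end Pool.Agent.Results.MP_e601b1_lc.TameUnarySets
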